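import Mathlib
import Pool.Agent.Results.MP_19f0f5_gt.AllDimensionsAllPoints

/-!
# At least three point sources are needed for planar convex bodies

No set of at most two points of the plane determines planar convex bodies by their chord functions.
Hence the least number `N` such that every set of `N` points, no three of them collinear,
determines planar convex bodies satisfies `3 ≤ N`; in particular the conjecture `N = 2` fails.
-/

set_option autoImplicit false

open Set

namespace Pool.Agent.Results.MP_e55421_gt.TwoPointsDoNotSuffice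

/-- The Euclidean plane. -/
abbrev E2 : Type := EuclideanSpace ℝ (Fin 2)

/-- The line through `x` making the angle `θ` with the first coordinate axis. -/
def lineAt (x : E2) (θ : ℝ) : Set E2 :=
  {p | ∃ t : ℝ, p = x + t • !₂[Real.cos θ, Real.sin θ]}

/-- The chord function of `K` at `x`: the length of `K ∩ ℓ(x, θ)`. For a compact convex set `K`
this intersection is a segment or empty, so that its length is its diameter (`0` if empty). -/
noncomputable def chordFn (K : Set E2) (x : E2) (θ : ℝ) : ℝ :=
  Metric.diam (K ∩ lineAt x θ)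

/-- A convex body: a compact convex set with nonempty interior. -/
def IsConvexBody (K : Set E2) : Prop :=
  IsCompact K ∧ Convex ℝ K ∧ (interior K).Nonempty

/-- The finite set `P` of points determines convex bodies: convex bodies with the same chord
functions at all points of `P` are equal. -/
def Determines (P : Finset E2) : Prop :=
  ∀ K L : Set E2, IsConvexBody K → IsConvexBody L →
    (∀ x ∈ P, ∀ θ ∈ Ico (0 : ℝ) Real.pi, chordFn K x θ = chordFn L x θ) → K = L

/-- Every set of `k` distinct points, no three of them collinear, determines convex bodies. The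
number `N` of the problem is the least `k ≥ 1` with this property. -/
def Works (k : ℕ) : Prop :=
  ∀ P : Finset E2, P.card = k →
    (∀ a ∈ P, ∀ b ∈ P, ∀ c ∈ P, a ≠ b → b ≠ c → a ≠ c → ¬ Collinear ℝ {a, b, c}) →
    Determines P

theorem pair (x₁ x₂ : E2) (hx : x₁ ≠ x₂) : ∃ K L : Set E2, IsConvexBody K ∧ IsConvexBody L ∧
    K ≠ L ∧ (∀ θ : ℝ, chordFn K x₁ θ = chordFn L x₁ θ) ∧
    (∀ θ : ℝ, chordFn K x₂ θ = chordFn L x₂ θ) := by
  obtain ⟨K, L, -, -, h⟩ := Pool.Agent.Results.MP_19f0f5_gt.AllDimensionsAllPoints.result
    E2 (by simp) x₁ x₂ hx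
  obtain ⟨⟨hK1, hK2, -, -, hK3⟩, ⟨hL1, hL2, -, -, hL3⟩, hne, h1, h2, -⟩ := h 1 one_pos
  exact ⟨K 1, L 1, ⟨hK2, hK1, hK3.mono inter_subset_right⟩,
    ⟨hL2, hL1, hL3.mono inter_subset_right⟩, hne, fun θ => h1 _, fun θ => h2 _⟩

/-- No set of at most two points of the plane determines convex bodies; consequently every `k`
such that all sets of `k` points, no three collinear, determine convex bodies is at least `3`. -/
theorem result : (∀ P : Finset E2, P.card ≤ 2 → ¬ Determines P) ∧ ∀ k : ℕ, Works k → 3 ≤ k := by
  have key : ∀ P : Finset E2, P.card ≤ 2 → ¬ Determines P := by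
    intro P hP hdet
    obtain ⟨x₁, x₂, hx, hsub⟩ : ∃ x₁ x₂ : E2, x₁ ≠ x₂ ∧ P ⊆ {x₁, x₂} := by
      obtain ⟨Q, hPQ, hQ⟩ := Infinite.exists_superset_card_eq P 2 hP
      obtain ⟨x₁, x₂, hx, rfl⟩ := Finset.card_eq_two.1 hQ
      exact ⟨x₁, x₂, hx, hPQ⟩
    obtain ⟨K, L, hK, hL, hne, h1, h2⟩ := pair x₁ x₂ hx
    refine hne (hdet K L hK hL ?_)
    intro x hxP θ _
    have := hsub hxP
    rw [Finset.mem_insert, Finset.mem_singleton] at this
    rcases this with rfl | rfl
    · exact h1 θ
    · exact h2 θ
  refine ⟨key, ?_⟩
  intro k hk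
  by_contra hlt
  push Not at hlt
  obtain ⟨P, hP⟩ := Infinite.exists_subset_card_eq E2 k
  have hle : P.card ≤ 2 := by omega
  refine key P hle (hk P hP ?_)
  intro a ha b hb c hc hab hbc hac _
  have h3 : ({a, b, c} : Finset E2).card = 3 := by
    rw [Finset.card_insert_of_notMem (by simp [hab, hac]),
      Finset.card_insert_of_notMem (by simp [hbc]), Finset.card_singleton]
  have hss : ({a, b, c} : Finset E2) ⊆ P := by
    intro y hy
    simp only [Finset.mem_insert, Finset.mem_singleton] at hy
    rcases hy with rfl | rfl | rfl <;> assumption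
  have := Finset.card_le_card hss
  omega

end Pool.Agent.Results.MP_e55421_gt.TwoPointsDoNotSuffice
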